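import Pool.Agent.W2helper22.MG.Stm

/-!
# Piece NUM of project MG
-/

set_option autoImplicit false

namespace Pool.Agent.W2helper52.MG

open Filter Pool.Agent.W2helper22.MG

theorem succ_le (m : ℕ) : m + 1 ≤ 2 ^ lam m := Nat.lt_pow_succ_log_self one_lt_two m

theorem sq_le {L : ℕ} (h : 4 ≤ L) : L ^ 2 ≤ 2 ^ L := by
  induction L, h using Nat.le_induction with
  | base => norm_num
  | succ L hL ih =>
    rw [pow_succ 2 L]
    nlinarith

theorem num : P_NUM := by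
  refine ⟨?_, fun m => ?_, fun c => ?_⟩
  · refine eventually_atTop.2 ⟨2, fun m hm => ?_⟩
    have h1 := succ_le m
    set N := 2 ^ lam m with hN
    have hN3 : 3 ≤ N := by omega
    have e6 : 2 ^ (6 * lam m) = N ^ 6 := by rw [hN, ← pow_mul, mul_comm]
    have e20 : 2 ^ (20 * lam m) = N ^ 20 := by rw [hN, ← pow_mul, mul_comm]
    rw [e6, e20]
    have hN1 : 1 ≤ N := by omega
    have a1 : (m + 2) ^ 3 ≤ 8 * N ^ 3 := by
      calc (m + 2) ^ 3 ≤ (2 * N) ^ 3 := Nat.pow_le_pow_left (by omega) 3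
        _ = 8 * N ^ 3 := by ring
    have a2 : 2 * m ≤ 2 * N ^ 3 := by
      have : N ≤ N ^ 3 := Nat.le_self_pow (by norm_num) N
      omega
    have a3 : 2 * m + 20 * (m + 2) ^ 3 ≤ 162 * N ^ 3 := by omega
    have a4 : N ^ 6 * (2 * m + 20 * (m + 2) ^ 3) ≤ 162 * N ^ 12 := by
      calc N ^ 6 * (2 * m + 20 * (m + 2) ^ 3) ≤ N ^ 6 * (162 * N ^ 3) := Nat.mul_le_mul_left _ a3
        _ = 162 * N ^ 9 := by ring
        _ ≤ 162 * N ^ 12 := Nat.mul_le_mul_left _ (Nat.pow_le_pow_right hN1 (by norm_num))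
    have hX : 1 ≤ N ^ 6 := Nat.one_le_pow _ _ hN1
    have a5 : (2 * (N ^ 6 + 2) + 2) * (N ^ 6 + 1) ≤ 16 * N ^ 12 := by
      calc (2 * (N ^ 6 + 2) + 2) * (N ^ 6 + 1) ≤ (8 * N ^ 6) * (2 * N ^ 6) :=
            Nat.mul_le_mul (by omega) (by omega)
        _ = 16 * N ^ 12 := by ring
    have hY : 1 ≤ N ^ 12 := Nat.one_le_pow _ _ hN1
    have a6 : N ^ 6 * (2 * m + 20 * (m + 2) ^ 3) + (2 * (N ^ 6 + 2) + 2) * (N ^ 6 + 1) + 2 ≤
        180 * N ^ 12 := by omega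
    have hZ : 1 ≤ N ^ 13 := Nat.one_le_pow _ _ hN1
    have a7 : 2 * (m + 1) * (N ^ 6 * (2 * m + 20 * (m + 2) ^ 3) +
        (2 * (N ^ 6 + 2) + 2) * (N ^ 6 + 1) + 2) ≤ 360 * N ^ 13 := by
      calc _ ≤ 2 * N * (180 * N ^ 12) := Nat.mul_le_mul (by omega) a6
        _ = 360 * N ^ 13 := by ring
    have a8 : 362 ≤ N ^ 7 :=
      (show 362 ≤ 3 ^ 7 by norm_num).trans (Nat.pow_le_pow_left hN3 7)
    calc _ ≤ 362 * N ^ 13 := by omega
      _ ≤ N ^ 7 * N ^ 13 := Nat.mul_le_mul_right _ a8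
      _ = N ^ 20 := by ring
  · rw [mul_comm 6, pow_mul]
    exact Nat.pow_le_pow_left (succ_le m) 6
  · refine eventually_atTop.2 ⟨2 ^ ((40 * c + 12) + 5), fun m hm D hD => ?_⟩
    have hL : (40 * c + 12) + 5 ≤ Nat.log 2 m := Nat.le_log_of_pow_le one_lt_two hm
    have hm0 : m ≠ 0 := by
      have : 0 < 2 ^ ((40 * c + 12) + 5) := by positivity
      omega
    rw [Nat.log_pow one_lt_two] at hD
    have h1 : D + 6 * lam m ≤ (40 * c + 12) * Nat.log 2 m := by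
      unfold lam at hD ⊢
      generalize Nat.log 2 m = L at *
      nlinarith
    refine ⟨h1, lt_of_le_of_lt h1 ?_⟩
    have h2 := Nat.pow_log_le_self 2 hm0
    have h3 := sq_le (L := Nat.log 2 m) (by omega)
    refine lt_of_lt_of_le ?_ (h3.trans h2)
    rw [sq]
    exact Nat.mul_lt_mul_of_pos_right (by omega) (by omega)

end Pool.Agent.W2helper52.MG
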